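import Mathlib

/-! Definitions for `MP_4a2ece_lc.Pi11Complete`: closed sublattices of a Banach lattice `E`, the
Wijsman topology on them, strict monotonicity. -/

namespace Pool.Agent.H76.PI.D

open MeasureTheory TopologicalSpace Set

universe u

variable (E : Type*) [NormedAddCommGroup E] [NormedSpace ℝ E] [Lattice E]

/-- `Subl(E)`: the closed linear subspaces `F` of `E` such that `|y| ∈ F` for all `y ∈ F`. -/
def Subl : Type _ := {F : Submodule ℝ E // IsClosed (F : Set E) ∧ ∀ y ∈ F, |y| ∈ F}

variable {E}

/-- The Wijsman topology: the topology induced by `F ↦ (dist (a n, F))ₙ`, a map to `ℕ → ℝ`, where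
`a` is a (dense) sequence in `E`. -/
@[reducible] noncomputable def wijsman (a : ℕ → E) : TopologicalSpace (Subl E) :=
  TopologicalSpace.induced (fun (F : Subl E) (n : ℕ) => Metric.infDist (a n) (F.1 : Set E))
    inferInstance

/-- The set of strictly monotone closed sublattices of `E`. -/
def STM : Set (Subl E) := {F | ∀ x ∈ F.1, ∀ y ∈ F.1, 0 < y → y ≤ x → ‖x - y‖ < ‖x‖}

variable (E)

/-- `STM(E)` is `Π¹₁`-complete in `Subl(E)` with the Wijsman topology of any dense sequence: its
complement is analytic, and every coanalytic subset `S` of a zero-dimensional Polish space `Y` is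
the preimage of `STM(E)` under a continuous map. -/
def STMPi11Complete : Prop :=
  ∀ a : ℕ → E, DenseRange a →
    @AnalyticSet (Subl E) (wijsman a) STMᶜ ∧
      ∀ (Y : Type u) [TopologicalSpace Y] [PolishSpace Y],
        IsTopologicalBasis {s : Set Y | IsClopen s} →
          ∀ S : Set Y, AnalyticSet Sᶜ →
            ∃ f : Y → Subl E, @Continuous Y (Subl E) _ (wijsman a) f ∧ f ⁻¹' STM = S

end Pool.Agent.H76.PI.D
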