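import Mathlib

/-!
# Strict monotonicity is `Π¹₁`-complete among separable Banach lattices

`C = C(Δ; L₁[0,1])`, `Subl(C)` is the space of closed sublattices of `C` with the Wijsman topology,
`STM(C)` is the set of strictly monotone closed sublattices.  We prove that `STM(C)` is
`Π¹₁`-complete in `Subl(C)`.

Idea of the lower bound.  To a tree `T` of finite sequences of natural numbers we attach the closed
sublattice `F T` of all `u` of the form `u(A) = ∑ᵢ xᵢ w(T, A, i) eᵢ`, where the `eᵢ` are disjoint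
normalised elements of `L₁`, so that the norm of `u` is the maximum over the Cantor set of weighted
`ℓ₁` norms `∑ᵢ |xᵢ| w(T, A, i)`.  A point `A` of the Cantor set codes a radius `rad A` in `[0,1]`
and a point of the product of countably many copies of the one-point compactification of the
natural numbers.  All weights are positive when `rad A > 0`.  If `T` has no infinite branch, the
maximum is never attained at a point with `rad A = 0`, hence `F T` is strictly monotone; if `T` has
an infinite branch then it is attained there for a suitable `u` and strict monotonicity fails.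
-/

open MeasureTheory Topology TopologicalSpace Set Filter

namespace Pool.Agent.H76.PIM

noncomputable section

/-! ### The objects of the statement -/

/-- `L₁ = L₁[0,1]`, with Lebesgue measure. -/
abbrev L1 : Type := Lp ℝ 1 (volume.restrict (Set.Icc (0:ℝ) 1))

/-- `C(Δ; L₁)`, the Banach lattice of continuous `L₁`-valued functions on the Cantor space
`Δ = ℕ → Bool`, with the supremum norm and the pointwise order. -/
abbrev CL : Type := C(ℕ → Bool, L1)

/-- `Subl(C)`: the closed linear subspaces `F` of `C` such that `|y| ∈ F` for all `y ∈ F`. -/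
def Subl : Type := {F : Submodule ℝ CL // IsClosed (F : Set CL) ∧ ∀ y ∈ F, |y| ∈ F}

/-- The Wijsman topology: the topology induced by `F ↦ (dist (a n, F))ₙ`, a map to `ℕ → ℝ`, where
`a` is a (dense) sequence in `C`. -/
@[reducible] def wijsman (a : ℕ → CL) : TopologicalSpace Subl :=
  TopologicalSpace.induced (fun (F : Subl) (n : ℕ) => Metric.infDist (a n) (F.1 : Set CL))
    inferInstance

/-- The set of strictly monotone closed sublattices of `C`. -/
def STM : Set Subl := {F | ∀ x ∈ F.1, ∀ y ∈ F.1, 0 < y → y ≤ x → ‖x - y‖ < ‖x‖}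

/-! ### Preliminaries on `L₁` -/

/-- Lebesgue measure on `[0,1]`. -/
abbrev mu : Measure ℝ := volume.restrict (Set.Icc (0:ℝ) 1)


/-- The band projection on `L₁` given by multiplication with the indicator of `s`. -/
def P (s : Set ℝ) (hs : MeasurableSet s) : L1 →L[ℝ] L1 :=
  LinearMap.mkContinuous
    { toFun := fun f => ((Lp.memLp f).indicator hs).toLp (s.indicator f)
      map_add' := fun f g => by
        rw [← MemLp.toLp_add]
        apply MemLp.toLp_congr
        filter_upwards [Lp.coeFn_add f g] with x hx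
        by_cases hxs : x ∈ s
        · rw [Pi.add_apply, Set.indicator_of_mem hxs, Set.indicator_of_mem hxs,
            Set.indicator_of_mem hxs, hx, Pi.add_apply]
        · simp [hxs]
      map_smul' := fun c f => by
        simp only [RingHom.id_apply]
        rw [← MemLp.toLp_const_smul]
        apply MemLp.toLp_congr
        filter_upwards [Lp.coeFn_smul c f] with x hx
        by_cases hxs : x ∈ s <;> simp [hxs, hx] } 1 (by
      intro f
      simp only [LinearMap.coe_mk, AddHom.coe_mk, one_mul]
      rw [Lp.norm_toLp, Lp.norm_def]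
      exact ENNReal.toReal_mono (Lp.eLpNorm_ne_top f) (eLpNorm_indicator_le _))

theorem P_apply (s : Set ℝ) (hs : MeasurableSet s) (f : L1) :
    P s hs f = ((Lp.memLp f).indicator hs).toLp (s.indicator f) := by
  simp only [P, LinearMap.mkContinuous_apply, LinearMap.coe_mk, AddHom.coe_mk]

theorem P_coeFn (s : Set ℝ) (hs : MeasurableSet s) (f : L1) :
    P s hs f =ᵐ[mu] s.indicator f := by
  rw [P_apply]
  have h := (Lp.memLp f).indicator hs
  exact h.coeFn_toLp

theorem P_norm_le (s : Set ℝ) (hs : MeasurableSet s) (f : L1) : ‖P s hs f‖ ≤ ‖f‖ := by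
  have := (P s hs).le_of_opNorm_le (c := 1) (LinearMap.mkContinuous_norm_le _ zero_le_one _) f
  simpa using this

theorem P_abs (s : Set ℝ) (hs : MeasurableSet s) (f : L1) : P s hs |f| = |P s hs f| := by
  apply Lp.ext
  filter_upwards [P_coeFn s hs |f|, P_coeFn s hs f, Lp.coeFn_abs f, Lp.coeFn_abs (P s hs f)]
    with x h1 h2 h3 h4
  rw [h1, h4, h2]
  by_cases hxs : x ∈ s <;> simp [hxs, h3]

theorem P_P (s t : Set ℝ) (hs : MeasurableSet s) (ht : MeasurableSet t) (f : L1) :
    P s hs (P t ht f) = P (s ∩ t) (hs.inter ht) f := by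
  apply Lp.ext
  filter_upwards [P_coeFn s hs (P t ht f), P_coeFn t ht f, P_coeFn (s ∩ t) (hs.inter ht) f]
    with x h1 h2 h3
  rw [h1, h3]
  by_cases hxs : x ∈ s <;> by_cases hxt : x ∈ t <;> simp [hxs, hxt, h2]

theorem norm_P_eq (s : Set ℝ) (hs : MeasurableSet s) (f : L1) :
    ‖P s hs f‖ = ∫ x in s, ‖f x‖ ∂mu := by
  rw [L1.norm_eq_integral_norm, ← integral_indicator hs]
  apply integral_congr_ae
  filter_upwards [P_coeFn s hs f] with x h1
  rw [h1]
  by_cases hxs : x ∈ s <;> simp [hxs]

/-- The dyadic intervals. -/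
def B (i : ℕ) : Set ℝ := Set.Ioc ((1/2:ℝ)^(i+1)) ((1/2)^i)

theorem measurableSet_B (i : ℕ) : MeasurableSet (B i) := measurableSet_Ioc

theorem B_disjoint : Pairwise (Function.onFun Disjoint B) := by
  have key : ∀ i j : ℕ, i < j → Disjoint (B i) (B j) := by
    intro i j hij
    rw [Set.disjoint_left]
    intro x hx hx'
    have h1 : (1/2:ℝ)^j ≤ (1/2)^(i+1) :=
      pow_le_pow_of_le_one (by norm_num) (by norm_num) hij
    exact absurd (hx.1.trans_le (hx'.2.trans h1)) (lt_irrefl _)
  intro i j hij
  rcases lt_or_gt_of_ne hij with h | h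
  · exact key i j h
  · exact (key j i h).symm

theorem iUnion_B : (⋃ i, B i) = Set.Ioc (0:ℝ) 1 := by
  ext x
  simp only [Set.mem_iUnion, B, Set.mem_Ioc]
  constructor
  · rintro ⟨i, h1, h2⟩
    exact ⟨lt_trans (by positivity) h1, h2.trans (pow_le_one₀ (by norm_num) (by norm_num))⟩
  · rintro ⟨h1, h2⟩
    exact exists_nat_pow_near_of_lt_one h1 h2 (by norm_num) (by norm_num)

theorem mu_B (i : ℕ) : mu (B i) = ENNReal.ofReal ((1/2:ℝ)^(i+1)) := by
  rw [Measure.restrict_apply (measurableSet_B i)]
  have : B i ∩ Set.Icc 0 1 = B i := by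
    apply Set.inter_eq_left.mpr
    intro x hx
    exact ⟨(lt_of_le_of_lt (by positivity) hx.1).le,
      hx.2.trans (pow_le_one₀ (by norm_num) (by norm_num))⟩
  rw [this, B, Real.volume_Ioc]
  congr 1
  rw [pow_succ]; ring

theorem mu_B_ne_top (i : ℕ) : mu (B i) ≠ ⊤ := by rw [mu_B]; exact ENNReal.ofReal_ne_top

theorem hsum_aux (f : L1) : (∫ x, ‖f x‖ ∂mu) = ∫ (x : ℝ) in Ioc 0 1, ‖f x‖ ∂mu := by
  symm
  rw [← integral_indicator measurableSet_Ioc]
  apply integral_congr_ae
  have h0 : ∀ᵐ x ∂mu, x ∈ Set.Ioc (0:ℝ) 1 := by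
    have h1 : mu = volume.restrict (Set.Ioc (0:ℝ) 1) :=
      Measure.restrict_congr_set Ioc_ae_eq_Icc.symm
    rw [h1]
    exact ae_restrict_mem measurableSet_Ioc
  filter_upwards [h0] with x hx
  simp [Set.indicator_of_mem hx]

/-- The norm in `L₁` is the sum of the norms of the pieces. -/
theorem hasSum_norm_P (f : L1) :
    HasSum (fun i => ‖P (B i) (measurableSet_B i) f‖) ‖f‖ := by
  simp_rw [norm_P_eq]
  have hint : Integrable (fun x => ‖f x‖) mu := (L1.integrable_coeFn f).norm
  have := hasSum_integral_iUnion (μ := mu) (f := fun x => ‖f x‖) measurableSet_B B_disjoint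
    hint.integrableOn
  rw [iUnion_B] at this
  have h2 : ‖f‖ = ∫ (x : ℝ) in Ioc 0 1, ‖f x‖ ∂mu := by
    rw [L1.norm_eq_integral_norm]
    exact (hsum_aux f)
  rw [h2]
  exact this

/-- The normalised indicator of `B i`. -/
def e (i : ℕ) : L1 := indicatorConstLp 1 (measurableSet_B i) (mu_B_ne_top i) ((2:ℝ)^(i+1))

theorem norm_e (i : ℕ) : ‖e i‖ = 1 := by
  rw [e, norm_indicatorConstLp (by norm_num) (by norm_num)]
  have : mu.real (B i) = (1/2:ℝ)^(i+1) := by
    rw [Measure.real, mu_B, ENNReal.toReal_ofReal (by positivity)]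
  rw [this]
  simp

theorem e_nonneg (i : ℕ) : 0 ≤ e i := by
  rw [← Lp.coeFn_nonneg]
  filter_upwards [indicatorConstLp_coeFn (p := 1) (hs := measurableSet_B i)
    (hμs := mu_B_ne_top i) (c := (2:ℝ)^(i+1))] with x hx
  rw [e, hx]
  simp only [Pi.zero_apply]
  apply Set.indicator_nonneg
  intro x _
  positivity

theorem P_e_self (i : ℕ) (s : Set ℝ) (hs : MeasurableSet s) (h : B i ⊆ s) : P s hs (e i) = e i := by
  apply Lp.ext
  filter_upwards [P_coeFn s hs (e i), indicatorConstLp_coeFn (p := 1) (hs := measurableSet_B i)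
    (hμs := mu_B_ne_top i) (c := (2:ℝ)^(i+1))] with x h1 h2
  rw [h1]
  by_cases hxs : x ∈ s
  · simp [hxs]
  · have : x ∉ B i := fun h' => hxs (h h')
    rw [Set.indicator_of_notMem hxs, e, h2, Set.indicator_of_notMem this]

theorem P_e_zero (i : ℕ) (s : Set ℝ) (hs : MeasurableSet s) (h : Disjoint (B i) s) :
    P s hs (e i) = 0 := by
  apply Lp.ext
  filter_upwards [P_coeFn s hs (e i), indicatorConstLp_coeFn (p := 1) (hs := measurableSet_B i)
    (hμs := mu_B_ne_top i) (c := (2:ℝ)^(i+1)), Lp.coeFn_zero ℝ 1 mu] with x h1 h2 h3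
  rw [h1, h3]
  by_cases hxs : x ∈ s
  · have : x ∉ B i := fun h' => Set.disjoint_left.mp h h' hxs
    rw [Set.indicator_of_mem hxs, e, h2, Set.indicator_of_notMem this, Pi.zero_apply]
  · rw [Set.indicator_of_notMem hxs, Pi.zero_apply]


theorem P_empty' (s : Set ℝ) (hs : MeasurableSet s) (h : s = ∅) (f : L1) : P s hs f = 0 := by
  have : ‖P s hs f‖ = 0 := by rw [norm_P_eq, h]; simp
  simpa using this

theorem P_congr {s t : Set ℝ} (hs : MeasurableSet s) (ht : MeasurableSet t) (h : s = t) (f : L1) :
    P s hs f = P t ht f := by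
  subst h; rfl

/-- The tail sets. -/
def Cs (n : ℕ) : Set ℝ := Set.Ioi ((1/2:ℝ)^n)

theorem measurableSet_Cs (n : ℕ) : MeasurableSet (Cs n) := measurableSet_Ioi

/-- The complementary sets. -/
def Ds (n : ℕ) : Set ℝ := Set.Iic ((1/2:ℝ)^n)

theorem measurableSet_Ds (n : ℕ) : MeasurableSet (Ds n) := measurableSet_Iic

theorem sub_P_Cs (n : ℕ) (f : L1) :
    f - P (Cs n) (measurableSet_Cs n) f = P (Ds n) (measurableSet_Ds n) f := by
  apply Lp.ext
  filter_upwards [Lp.coeFn_sub f (P (Cs n) (measurableSet_Cs n) f),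
    P_coeFn (Cs n) (measurableSet_Cs n) f, P_coeFn (Ds n) (measurableSet_Ds n) f] with x h1 h2 h3
  rw [h1, h3, Pi.sub_apply, h2]
  by_cases hx : x ∈ Cs n
  · have : x ∉ Ds n := by simpa [Cs, Ds] using hx
    simp [hx, this]
  · have : x ∈ Ds n := by simpa [Cs, Ds] using hx
    simp [hx, this]

theorem B_subset_Cs {i n : ℕ} (h : i < n) : B i ⊆ Cs n := by
  intro x hx
  have h1 : (1/2:ℝ)^n ≤ (1/2)^(i+1) :=
    pow_le_pow_of_le_one (by norm_num) (by norm_num) h
  exact lt_of_le_of_lt h1 hx.1

theorem B_disjoint_Cs {i n : ℕ} (h : n ≤ i) : Disjoint (B i) (Cs n) := by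
  rw [Set.disjoint_left]
  intro x hx hx'
  have h1 : (1/2:ℝ)^i ≤ (1/2)^n :=
    pow_le_pow_of_le_one (by norm_num) (by norm_num) h
  exact absurd (lt_of_lt_of_le hx' (hx.2.trans h1)) (lt_irrefl _)

theorem P_B_Cs_lt {i n : ℕ} (h : i < n) (f : L1) :
    P (B i) (measurableSet_B i) (P (Cs n) (measurableSet_Cs n) f)
      = P (B i) (measurableSet_B i) f := by
  rw [P_P]
  exact P_congr _ _ (Set.inter_eq_left.mpr (B_subset_Cs h)) f

theorem P_B_Cs_ge {i n : ℕ} (h : n ≤ i) (f : L1) :
    P (B i) (measurableSet_B i) (P (Cs n) (measurableSet_Cs n) f) = 0 := by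
  rw [P_P]
  exact P_empty' _ _ (Set.disjoint_iff_inter_eq_empty.mp (B_disjoint_Cs h)) f

theorem P_B_Ds_lt {i n : ℕ} (h : i < n) (f : L1) :
    P (B i) (measurableSet_B i) (P (Ds n) (measurableSet_Ds n) f) = 0 := by
  rw [← sub_P_Cs, map_sub, P_B_Cs_lt h, sub_self]

theorem P_B_Ds_ge {i n : ℕ} (h : n ≤ i) (f : L1) :
    P (B i) (measurableSet_B i) (P (Ds n) (measurableSet_Ds n) f)
      = P (B i) (measurableSet_B i) f := by
  rw [← sub_P_Cs, map_sub, P_B_Cs_ge h, sub_zero]

theorem norm_P_Ds (n : ℕ) (f : L1) :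
    ‖P (Ds n) (measurableSet_Ds n) f‖
      = ∑' k, ‖P (B (k+n)) (measurableSet_B (k+n)) f‖ := by
  have h := hasSum_norm_P (P (Ds n) (measurableSet_Ds n) f)
  rw [← h.tsum_eq, ← h.summable.sum_add_tsum_nat_add n]
  have h1 : ∑ i ∈ Finset.range n,
      ‖P (B i) (measurableSet_B i) (P (Ds n) (measurableSet_Ds n) f)‖ = 0 := by
    apply Finset.sum_eq_zero
    intro i hi
    rw [P_B_Ds_lt (Finset.mem_range.mp hi), norm_zero]
  rw [h1, zero_add]
  congr 1
  funext k
  rw [P_B_Ds_ge (by omega)]

theorem tendsto_norm_P_Ds (f : L1) :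
    Tendsto (fun n => ‖P (Ds n) (measurableSet_Ds n) f‖) atTop (𝓝 0) := by
  simp_rw [norm_P_Ds]
  exact tendsto_sum_nat_add (fun i => ‖P (B i) (measurableSet_B i) f‖)

theorem antitone_norm_P_Ds (f : L1) :
    Antitone (fun n => ‖P (Ds n) (measurableSet_Ds n) f‖) := by
  intro n m hnm
  have hsub : Ds m ⊆ Ds n := by
    intro x hx
    have h1 : (1/2:ℝ)^m ≤ (1/2)^n :=
      pow_le_pow_of_le_one (by norm_num) (by norm_num) hnm
    exact (show x ≤ (1/2:ℝ)^m from hx).trans h1
  have : P (Ds m) (measurableSet_Ds m) f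
      = P (Ds m) (measurableSet_Ds m) (P (Ds n) (measurableSet_Ds n) f) := by
    rw [P_P]
    exact P_congr _ _ (Set.inter_eq_left.mpr hsub).symm f
  simp only
  rw [this]
  exact P_norm_le _ _ _

/-- Band projection on `C(Δ; L₁)`. -/
def Pc (s : Set ℝ) (hs : MeasurableSet s) (u : CL) : CL :=
  ⟨fun A => P s hs (u A), (P s hs).continuous.comp u.continuous⟩

@[simp] theorem Pc_apply (s : Set ℝ) (hs : MeasurableSet s) (u : CL) (A : ℕ → Bool) :
    Pc s hs u A = P s hs (u A) := rfl

theorem norm_Pc_sub_le (s : Set ℝ) (hs : MeasurableSet s) (u v : CL) :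
    ‖Pc s hs u - Pc s hs v‖ ≤ ‖u - v‖ := by
  rw [ContinuousMap.norm_le _ (norm_nonneg _)]
  intro A
  simp only [ContinuousMap.sub_apply, Pc_apply]
  rw [← map_sub]
  refine (P_norm_le _ _ _).trans ?_
  have := (u - v).norm_coe_le_norm A
  simpa using this

theorem exists_norm_sub_Pc_lt (u : CL) {ε : ℝ} (hε : 0 < ε) :
    ∃ n, ‖u - Pc (Cs n) (measurableSet_Cs n) u‖ < ε := by
  have hD : TendstoUniformly (fun n A => ‖P (Ds n) (measurableSet_Ds n) (u A)‖)
      (fun _ => (0:ℝ)) atTop := by
    apply Antitone.tendstoUniformly_of_forall_tendsto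
    · intro i
      exact ((P (Ds i) (measurableSet_Ds i)).continuous.comp u.continuous).norm
    · intro n m hnm A
      exact antitone_norm_P_Ds (u A) hnm
    · exact continuous_const
    · intro A
      exact tendsto_norm_P_Ds (u A)
  rw [Metric.tendstoUniformly_iff] at hD
  obtain ⟨n, hn⟩ := (hD ε hε).exists
  refine ⟨n, ?_⟩
  rw [ContinuousMap.norm_lt_iff _ hε]
  intro A
  have := hn A
  simp only [ContinuousMap.sub_apply, Pc_apply]
  rw [sub_P_Cs]
  rw [dist_comm, Real.dist_eq, sub_zero, abs_of_nonneg (norm_nonneg _)] at this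
  exact this

/-- the radius parameter. -/
def rad (A : ℕ → Bool) : ℝ := ∑' n, (if A (Nat.pair 0 n) then (1/2:ℝ)^(n+1) else 0)

theorem rad_summable (A : ℕ → Bool) :
    Summable (fun n => (if A (Nat.pair 0 n) then (1/2:ℝ)^(n+1) else 0)) := by
  have h : Summable (fun n : ℕ => (1/2:ℝ)^(n+1)) :=
    (summable_nat_add_iff 1).mpr summable_geometric_two
  refine Summable.of_nonneg_of_le (fun n => ?_) (fun n => ?_) h
  · split_ifs <;> positivity
  · split_ifs
    · exact le_rfl
    · positivity

theorem rad_nonneg (A : ℕ → Bool) : 0 ≤ rad A :=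
  tsum_nonneg fun n => by split_ifs <;> positivity

theorem tsum_half : (∑' n : ℕ, (1/2:ℝ)^(n+1)) = 1 := by
  have h1 : (∑' n : ℕ, (1/2:ℝ)^(n+1)) = ∑' n : ℕ, (1/2:ℝ)^n * (1/2) := by
    simp_rw [pow_succ]
  rw [h1, tsum_mul_right, tsum_geometric_two]
  norm_num

theorem rad_le_one (A : ℕ → Bool) : rad A ≤ 1 := by
  have h : Summable (fun n : ℕ => (1/2:ℝ)^(n+1)) :=
    (summable_nat_add_iff 1).mpr summable_geometric_two
  calc rad A ≤ ∑' n : ℕ, (1/2:ℝ)^(n+1) := by
        refine (rad_summable A).tsum_le_tsum (fun n => ?_) h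
        split_ifs
        · exact le_rfl
        · positivity
    _ = 1 := tsum_half

theorem continuous_rad : Continuous rad := by
  unfold rad
  have h : Summable (fun n : ℕ => (1/2:ℝ)^(n+1)) :=
    (summable_nat_add_iff 1).mpr summable_geometric_two
  refine continuous_tsum (fun n => ?_) h (fun n A => ?_)
  · have : (fun A : ℕ → Bool => (if A (Nat.pair 0 n) then (1/2:ℝ)^(n+1) else 0))
        = (fun b : Bool => (if b then (1/2:ℝ)^(n+1) else 0)) ∘ (fun A => A (Nat.pair 0 n)) := rfl
    rw [this]
    exact continuous_of_discreteTopology.comp (continuous_apply _)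
  · rw [Real.norm_eq_abs]
    split_ifs
    · rw [abs_of_nonneg (by positivity)]
    · rw [abs_zero]; positivity

/-- `A` codes the value `n` in row `i`. -/
def hit (A : ℕ → Bool) (i n : ℕ) : Prop :=
  A (Nat.pair i n) = true ∧ ∀ j < n, A (Nat.pair i j) = false

/-- the list `l` (written in reverse order) is active for the code `A`. -/
def active (A : ℕ → Bool) : List ℕ → Prop
  | [] => True
  | (a :: l) => active A l ∧ hit A (l.length + 1) a

theorem hit_unique {A : ℕ → Bool} {i n m : ℕ} (h : hit A i n) (h' : hit A i m) : n = m := by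
  by_contra hne
  rcases lt_or_gt_of_ne hne with hlt | hlt
  · have := h'.2 n hlt
    rw [h.1] at this
    exact absurd this (by decide)
  · have := h.2 m hlt
    rw [h'.1] at this
    exact absurd this (by decide)

theorem active_unique {A : ℕ → Bool} : ∀ {l l' : List ℕ}, active A l → active A l' →
    l.length = l'.length → l = l'
  | [], [], _, _, _ => rfl
  | [], (a :: l'), _, _, h => by simp at h
  | (a :: l), [], _, _, h => by simp at h
  | (a :: l), (b :: l'), h1, h2, h => by
    have hl : l.length = l'.length := by simpa using h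
    have e1 : l = l' := active_unique h1.1 h2.1 hl
    have e2 : a = b := by
      have h3 := h2.2
      rw [← hl] at h3
      exact hit_unique h1.2 h3
    rw [e1, e2]

theorem isClopen_hit (i n : ℕ) : IsClopen {A : ℕ → Bool | hit A i n} := by
  have : {A : ℕ → Bool | hit A i n} = {A | A (Nat.pair i n) = true} ∩
      ⋂ j ∈ Finset.range n, {A | A (Nat.pair i j) = false} := by
    ext A; simp [hit]
  rw [this]
  apply IsClopen.inter
  · exact (isClopen_discrete {true}).preimage (continuous_apply _)
  · apply isClopen_biInter_finset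
    intro j _
    exact (isClopen_discrete {false}).preimage (continuous_apply _)

theorem isClopen_active : ∀ l : List ℕ, IsClopen {A : ℕ → Bool | active A l}
  | [] => by simp only [active]; exact isClopen_univ
  | (a :: l) => by
    have := (isClopen_active l).inter (isClopen_hit (l.length + 1) a)
    exact this

open Classical in
/-- the weights -/
def w (T : Set (List ℕ)) (A : ℕ → Bool) : ℕ → ℝ
  | 0 => 1 + rad A
  | 1 => rad A / 16
  | (n+2) => (if Denumerable.ofNat (List ℕ) n ∈ T ∧ active A (Denumerable.ofNat (List ℕ) n) then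
      max 0 (1 - 4^(Denumerable.ofNat (List ℕ) n).length * rad A ^ 2) else 0) + rad A / 16

theorem w_pos_case {T : Set (List ℕ)} {A : ℕ → Bool} {n : ℕ}
    (h : Denumerable.ofNat (List ℕ) n ∈ T ∧ active A (Denumerable.ofNat (List ℕ) n)) :
    w T A (n+2) = max 0 (1 - 4^(Denumerable.ofNat (List ℕ) n).length * rad A ^ 2) + rad A / 16 := by
  simp only [w]; rw [if_pos h]

theorem w_neg_case {T : Set (List ℕ)} {A : ℕ → Bool} {n : ℕ}
    (h : ¬ (Denumerable.ofNat (List ℕ) n ∈ T ∧ active A (Denumerable.ofNat (List ℕ) n))) :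
    w T A (n+2) = rad A / 16 := by
  simp only [w]; rw [if_neg h, zero_add]

theorem continuous_w (T : Set (List ℕ)) : ∀ i, Continuous (fun A => w T A i)
  | 0 => by
    simp only [w]; exact continuous_const.add continuous_rad
  | 1 => by
    simp only [w]; exact continuous_rad.div_const _
  | (n+2) => by
    classical
    have hclop : IsClopen {A : ℕ → Bool | Denumerable.ofNat (List ℕ) n ∈ T ∧
        active A (Denumerable.ofNat (List ℕ) n)} := by
      by_cases hT : Denumerable.ofNat (List ℕ) n ∈ T
      · simp only [hT, true_and]; exact isClopen_active _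
      · simp only [hT, false_and]; exact isClopen_empty
    have hcont : Continuous (fun A : ℕ → Bool => 
        max 0 (1 - 4^(Denumerable.ofNat (List ℕ) n).length * rad A ^ 2) + rad A / 16) := by
      have := continuous_rad
      fun_prop
    have hcont2 : Continuous (fun A : ℕ → Bool => rad A / 16) := continuous_rad.div_const _
    have : (fun A => w T A (n+2)) = ({A : ℕ → Bool | Denumerable.ofNat (List ℕ) n ∈ T ∧
        active A (Denumerable.ofNat (List ℕ) n)}).piecewise (fun A : ℕ → Bool => 
        max 0 (1 - 4^(Denumerable.ofNat (List ℕ) n).length * rad A ^ 2) + rad A / 16)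
        (fun A : ℕ → Bool => rad A / 16) := by
      funext A
      by_cases h : Denumerable.ofNat (List ℕ) n ∈ T ∧ active A (Denumerable.ofNat (List ℕ) n)
      · rw [w_pos_case h]; simp only [Set.piecewise, Set.mem_ofPred_eq, if_pos h]
      · rw [w_neg_case h]; simp only [Set.piecewise, Set.mem_ofPred_eq, if_neg h]
    rw [this]
    apply Continuous.piecewise _ hcont hcont2
    intro A hA
    rw [hclop.frontier_eq] at hA
    exact absurd hA (Set.notMem_empty _)

theorem w_nonneg (T : Set (List ℕ)) (A : ℕ → Bool) : ∀ i, 0 ≤ w T A i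
  | 0 => by simp only [w]; linarith [rad_nonneg A]
  | 1 => by simp only [w]; linarith [rad_nonneg A]
  | (n+2) => by
    simp only [w]
    have := rad_nonneg A
    split_ifs
    · have : (0:ℝ) ≤ max 0 (1 - 4^(Denumerable.ofNat (List ℕ) n).length * rad A ^ 2) :=
        le_max_left _ _
      linarith
    · linarith

theorem w_pos (T : Set (List ℕ)) (A : ℕ → Bool) (hA : 0 < rad A) : ∀ i, 0 < w T A i
  | 0 => by simp only [w]; linarith
  | 1 => by simp only [w]; linarith
  | (n+2) => by
    simp only [w]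
    split_ifs
    · have : (0:ℝ) ≤ max 0 (1 - 4^(Denumerable.ofNat (List ℕ) n).length * rad A ^ 2) :=
        le_max_left _ _
      linarith
    · linarith

theorem w_le_two (T : Set (List ℕ)) (A : ℕ → Bool) : ∀ i, w T A i ≤ 2
  | 0 => by simp only [w]; linarith [rad_le_one A]
  | 1 => by simp only [w]; linarith [rad_le_one A]
  | (n+2) => by
    simp only [w]
    have h1 := rad_le_one A
    split_ifs
    · have : max 0 (1 - 4^(Denumerable.ofNat (List ℕ) n).length * rad A ^ 2) ≤ (1:ℝ) := by
        apply max_le zero_le_one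
        have : 0 ≤ (4:ℝ)^(Denumerable.ofNat (List ℕ) n).length * rad A ^ 2 := by positivity
        linarith
      linarith
    · linarith

/-- the all-true code. -/
def A1 : ℕ → Bool := fun _ => true

theorem rad_A1 : rad A1 = 1 := by
  simp only [rad, A1, if_true]
  exact tsum_half

/-- Lemma A: if `rad A = 0` and `T` has no infinite branch then some other code has strictly
larger weights. -/
theorem exists_code_gt (T : Set (List ℕ)) (hT : ∀ a l, (a :: l) ∈ T → l ∈ T)
    (hwf : ¬ ∃ β : ℕ → ℕ, ∀ k, PiNat.res β k ∈ T) (A : ℕ → Bool) (hA : rad A = 0) :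
    ∃ A', ∀ i, w T A i < w T A' i := by
  -- bound on the lengths of active lists in `T`
  have hbound : ∃ K, ∀ l ∈ T, active A l → l.length < K := by
    by_contra hcon
    push Not at hcon
    -- for every K there is an active list in T of length exactly K
    have hex : ∀ K, ∃ l ∈ T, active A l ∧ l.length = K := by
      have hred : ∀ m K, ∀ l ∈ T, active A l → l.length = K + m →
          ∃ l ∈ T, active A l ∧ l.length = K := by
        intro m
        induction m with
        | zero => intro K l hl ha hlen; exact ⟨l, hl, ha, by simpa using hlen⟩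
        | succ m ih =>
          intro K l hl ha hlen
          cases l with
          | nil => simp at hlen
          | cons a l =>
            refine ih K l (hT a l hl) ha.1 ?_
            simp at hlen
            omega
      intro K
      obtain ⟨l, hl, ha, hlen⟩ := hcon K
      exact hred (l.length - K) K l hl ha (by omega)
    choose t htT hta htl using hex
    apply hwf
    refine ⟨fun k => (t (k+1)).headD 0, fun k => ?_⟩
    have hres : ∀ k, PiNat.res (fun k => (t (k+1)).headD 0) k = t k := by
      intro k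
      induction k with
      | zero =>
        have := htl 0
        rw [List.length_eq_zero_iff] at this
        rw [this]; rfl
      | succ k ih =>
        rw [PiNat.res_succ, ih]
        have h1 := htl (k+1)
        have h2 := hta (k+1)
        cases ht : t (k+1) with
        | nil => rw [ht] at h1; simp at h1
        | cons a l =>
          rw [ht] at h1 h2
          simp only [List.headD_cons]
          congr 1
          apply active_unique (hta k) h2.1
          rw [htl k]
          simpa using h1.symm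
    rw [hres]
    exact htT k
  obtain ⟨K, hK⟩ := hbound
  -- choose N with 4^K * r < 1/16
  obtain ⟨N, hN⟩ : ∃ N : ℕ, (4:ℝ)^K * (1/2)^(N+1) < 1/16 := by
    obtain ⟨N, hN⟩ := exists_pow_lt_of_lt_one (show (0:ℝ) < 1/(16 * 4^K) by positivity)
      (show (1/2:ℝ) < 1 by norm_num)
    refine ⟨N, ?_⟩
    have h4 : (0:ℝ) < 4^K := by positivity
    calc (4:ℝ)^K * (1/2)^(N+1) ≤ 4^K * (1/2)^N := by
          have := pow_le_pow_of_le_one (show (0:ℝ) ≤ 1/2 by norm_num)
            (show (1/2:ℝ) ≤ 1 by norm_num) (Nat.le_succ N)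
          exact mul_le_mul_of_nonneg_left this h4.le
      _ < 4^K * (1/(16 * 4^K)) := by gcongr
      _ = 1/16 := by field_simp
  refine ⟨Function.update A (Nat.pair 0 N) true, ?_⟩
  have hAfalse : ∀ n, A (Nat.pair 0 n) = false := by
    intro n
    by_contra h
    have h' : A (Nat.pair 0 n) = true := by simpa using h
    have h1 := (rad_summable A).le_tsum n (fun j _ => by split_ifs <;> positivity)
    rw [if_pos h'] at h1
    change _ ≤ rad A at h1
    rw [hA] at h1
    have : (0:ℝ) < (1/2)^(n+1) := by positivity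
    linarith
  set A' := Function.update A (Nat.pair 0 N) true with hA'
  have hrad : rad A' = (1/2)^(N+1) := by
    rw [rad, tsum_eq_single N]
    · simp [hA']
    · intro n hn
      have : Nat.pair 0 n ≠ Nat.pair 0 N := by
        intro h; apply hn; simpa using h
      simp [hA', Function.update_of_ne this, hAfalse]
  have hhit : ∀ i n, hit A' (i+1) n ↔ hit A (i+1) n := by
    intro i n
    have hne : ∀ j, Nat.pair (i+1) j ≠ Nat.pair 0 N := by
      intro j h
      rw [Nat.pair_eq_pair] at h
      omega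
    simp only [hit, hA', Function.update_of_ne (hne _)]
  have hact : ∀ l, active A' l ↔ active A l := by
    intro l
    induction l with
    | nil => simp [active]
    | cons a l ih => simp only [active, ih, hhit]
  have hpos : 0 < rad A' := by rw [hrad]; positivity
  intro i
  match i with
  | 0 => simp only [w]; rw [hA]; linarith
  | 1 => simp only [w]; rw [hA]; linarith
  | (n+2) =>
    by_cases h : Denumerable.ofNat (List ℕ) n ∈ T ∧ active A (Denumerable.ofNat (List ℕ) n)
    · have h' : Denumerable.ofNat (List ℕ) n ∈ T ∧ active A' (Denumerable.ofNat (List ℕ) n) :=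
        ⟨h.1, (hact _).mpr h.2⟩
      rw [w_pos_case h, w_pos_case h', hA]
      have hlen := hK _ h.1 h.2
      set m := (Denumerable.ofNat (List ℕ) n).length with hm
      have h1 : (max 0 (1 - 4^m * (0:ℝ)^2)) = 1 := by norm_num
      rw [h1]
      have h2 : (4:ℝ)^m * rad A' < 1/16 := by
        rw [hrad]
        refine lt_of_le_of_lt ?_ hN
        gcongr
        · norm_num
      have h3 : 1 - 4^m * rad A' ^ 2 ≤ max 0 (1 - 4^m * rad A' ^ 2) := le_max_right _ _
      nlinarith
    · have h' : ¬ (Denumerable.ofNat (List ℕ) n ∈ T ∧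
          active A' (Denumerable.ofNat (List ℕ) n)) :=
        fun hh => h ⟨hh.1, (hact _).mp hh.2⟩
      rw [w_neg_case h, w_neg_case h', hA]
      linarith

/-- The integral as a continuous linear functional on `L₁`. -/
def Int1 : L1 →L[ℝ] ℝ := L1.integralCLM

theorem norm_eq_Int1 {f : L1} (hf : 0 ≤ f) : ‖f‖ = Int1 f := by
  rw [L1.norm_eq_integral_norm]
  have h1 : Int1 f = ∫ x, f x ∂mu := by
    rw [← L1.integral_eq_integral, L1.integral_eq]
    rfl
  rw [h1]
  rw [← Lp.coeFn_nonneg] at hf
  apply integral_congr_ae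
  filter_upwards [hf] with x hx
  rw [Real.norm_eq_abs, abs_of_nonneg hx]

theorem norm_add_of_nonneg {f g : L1} (hf : 0 ≤ f) (hg : 0 ≤ g) : ‖f + g‖ = ‖f‖ + ‖g‖ := by
  rw [norm_eq_Int1 hf, norm_eq_Int1 hg, norm_eq_Int1 (add_nonneg hf hg), map_add]

theorem Int1_e (i : ℕ) : Int1 (e i) = 1 := by
  rw [← norm_eq_Int1 (e_nonneg i), norm_e]

/-- Coefficient functional. -/
def coef (i : ℕ) (f : L1) : ℝ := Int1 (P (B i) (measurableSet_B i) f)

theorem continuous_coef (i : ℕ) : Continuous (coef i) :=
  Int1.continuous.comp (P (B i) (measurableSet_B i)).continuous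

/-- Membership predicate for the sublattice attached to `T`. -/
def memF (T : Set (List ℕ)) (u : CL) : Prop :=
  ∃ x : ℕ → ℝ, ∀ A i, P (B i) (measurableSet_B i) (u A) = (x i * w T A i) • e i

theorem rad_A1_pos : 0 < rad A1 := by rw [rad_A1]; norm_num

theorem memF_iff (T : Set (List ℕ)) (u : CL) :
    memF T u ↔ ∀ A i, P (B i) (measurableSet_B i) (u A)
      = (coef i (u A1) / w T A1 i * w T A i) • e i := by
  constructor
  · rintro ⟨x, hx⟩ A i
    have h1 : coef i (u A1) / w T A1 i = x i := by
      rw [coef, hx A1 i, map_smul, Int1_e, smul_eq_mul, mul_one]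
      exact mul_div_cancel_right₀ _ (w_pos T A1 rad_A1_pos i).ne'
    rw [h1]
    exact hx A i
  · intro h
    exact ⟨fun i => coef i (u A1) / w T A1 i, h⟩

/-- The closed sublattice attached to `T`. -/
def F (T : Set (List ℕ)) : Submodule ℝ CL where
  carrier := {u | memF T u}
  add_mem' := by
    rintro u v ⟨x, hx⟩ ⟨y, hy⟩
    refine ⟨fun i => x i + y i, fun A i => ?_⟩
    rw [ContinuousMap.add_apply, map_add, hx, hy, ← add_smul]
    congr 1; ring
  zero_mem' := by
    refine ⟨fun i => 0, fun A i => ?_⟩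
    simp
  smul_mem' := by
    rintro c u ⟨x, hx⟩
    refine ⟨fun i => c * x i, fun A i => ?_⟩
    rw [ContinuousMap.smul_apply, map_smul, hx, smul_smul]
    congr 1; ring

theorem mem_F {T : Set (List ℕ)} {u : CL} : u ∈ F T ↔ memF T u := Iff.rfl

theorem isClosed_F (T : Set (List ℕ)) : IsClosed (F T : Set CL) := by
  have : (F T : Set CL) = ⋂ A, ⋂ i, {u : CL | P (B i) (measurableSet_B i) (u A)
      = (coef i (u A1) / w T A1 i * w T A i) • e i} := by
    ext u
    simp only [Set.mem_iInter]
    exact memF_iff T u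
  rw [this]
  refine isClosed_iInter fun A => isClosed_iInter fun i => ?_
  apply isClosed_eq
  · exact (P (B i) (measurableSet_B i)).continuous.comp (continuous_eval_const (F := CL) A)
  · have h1 : Continuous (fun u : CL => coef i (u A1)) :=
      (continuous_coef i).comp (continuous_eval_const (F := CL) A1)
    exact ((h1.div_const _).mul continuous_const).smul continuous_const

theorem smul_nonneg_L1 {c : ℝ} (hc : 0 ≤ c) {f : L1} (hf : 0 ≤ f) : 0 ≤ c • f := by
  rw [← Lp.coeFn_nonneg] at hf ⊢
  filter_upwards [hf, Lp.coeFn_smul c f] with x h1 h2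
  rw [h2]
  exact mul_nonneg hc h1

theorem abs_smul_e (c : ℝ) (i : ℕ) : |c • e i| = |c| • e i := by
  rcases le_total 0 c with h | h
  · rw [abs_of_nonneg h, abs_of_nonneg (smul_nonneg_L1 h (e_nonneg i))]
  · rw [abs_of_nonpos h, ← abs_neg, ← neg_smul,
      abs_of_nonneg (smul_nonneg_L1 (neg_nonneg.mpr h) (e_nonneg i))]

theorem abs_apply (u : CL) (A : ℕ → Bool) : |u| A = |u A| := rfl

theorem abs_mem_F (T : Set (List ℕ)) (u : CL) (hu : u ∈ F T) : |u| ∈ F T := by
  obtain ⟨x, hx⟩ := hu
  refine ⟨fun i => |x i|, fun A i => ?_⟩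
  rw [abs_apply, P_abs, hx, abs_smul_e, abs_mul, abs_of_nonneg (w_nonneg T A i)]

/-- The norm formula. -/
theorem hasSum_norm {T : Set (List ℕ)} {u : CL} {x : ℕ → ℝ}
    (hx : ∀ A i, P (B i) (measurableSet_B i) (u A) = (x i * w T A i) • e i) (A : ℕ → Bool) :
    HasSum (fun i => |x i| * w T A i) ‖u A‖ := by
  have := hasSum_norm_P (u A)
  simp_rw [hx, norm_smul, norm_e, mul_one, Real.norm_eq_abs, abs_mul,
    abs_of_nonneg (w_nonneg T A _)] at this
  exact this

theorem exists_coeff_ne {T : Set (List ℕ)} {u : CL} {x : ℕ → ℝ}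
    (hx : ∀ A i, P (B i) (measurableSet_B i) (u A) = (x i * w T A i) • e i) (hu : u ≠ 0) :
    ∃ i, x i ≠ 0 := by
  by_contra hcon
  push Not at hcon
  apply hu
  ext1 A
  have := hasSum_norm hx A
  simp only [hcon, abs_zero, zero_mul] at this
  have h0 := this.unique hasSum_zero
  simpa using h0

/-- Well-founded trees give strictly monotone lattices. -/
theorem strictMono_of_wf (T : Set (List ℕ)) (hT : ∀ a l, (a :: l) ∈ T → l ∈ T)
    (hwf : ¬ ∃ β : ℕ → ℕ, ∀ k, PiNat.res β k ∈ T) :
    ∀ x ∈ F T, ∀ y ∈ F T, 0 < y → y ≤ x → ‖x - y‖ < ‖x‖ := by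
  intro x hx y hy hy0 hyx
  have hx0 : 0 < x := lt_of_lt_of_le hy0 hyx
  by_cases hz : x - y = 0
  · rw [hz, norm_zero]
    exact norm_pos_iff.mpr hx0.ne'
  obtain ⟨A, hA⟩ : ∃ A, ‖(x - y) A‖ = ‖x - y‖ := by
    obtain ⟨A, -, hA⟩ := (isCompact_univ (X := ℕ → Bool)).exists_isMaxOn Set.univ_nonempty
      (x - y).continuous.norm.continuousOn
    refine ⟨A, le_antisymm ((x - y).norm_coe_le_norm A) ?_⟩
    rw [ContinuousMap.norm_le _ (norm_nonneg _)]
    intro A'
    exact hA (Set.mem_univ A')
  have hzF : x - y ∈ F T := (F T).sub_mem hx hy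
  obtain ⟨c, hc⟩ := hzF
  obtain ⟨i0, hi0⟩ := exists_coeff_ne hc hz
  have hrad : 0 < rad A := by
    rcases (rad_nonneg A).lt_or_eq with h | h
    · exact h
    · exfalso
      obtain ⟨A', hA'⟩ := exists_code_gt T hT hwf A h.symm
      have h1 := hasSum_norm hc A
      have h2 := hasSum_norm hc A'
      have h3 : ‖(x - y) A‖ < ‖(x - y) A'‖ := by
        refine hasSum_lt (i := i0) (fun i => ?_) ?_ h1 h2
        · exact mul_le_mul_of_nonneg_left (hA' i).le (abs_nonneg _)
        · exact mul_lt_mul_of_pos_left (hA' i0) (abs_pos.mpr hi0)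
      have h4 := (x - y).norm_coe_le_norm A'
      linarith
  have hyA : 0 < ‖y A‖ := by
    obtain ⟨d, hd⟩ := hy
    obtain ⟨j, hj⟩ := exists_coeff_ne hd hy0.ne'
    have h1 := hasSum_norm hd A
    have h2 : |d j| * w T A j ≤ ‖y A‖ :=
      le_hasSum h1 j (fun i _ => mul_nonneg (abs_nonneg _) (w_nonneg T A i))
    have h3 : 0 < |d j| * w T A j := mul_pos (abs_pos.mpr hj) (w_pos T A hrad j)
    linarith
  have hxy : 0 ≤ x - y := sub_nonneg.mpr hyx
  have hadd : ‖x A‖ = ‖(x - y) A‖ + ‖y A‖ := by
    have h5 : x A = (x - y) A + y A := by simp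
    have h6 : (0 : L1) ≤ (x - y) A := hxy A
    have h7 : (0 : L1) ≤ y A := hy0.le A
    rw [h5, norm_add_of_nonneg h6 h7]
  have := x.norm_coe_le_norm A
  rw [← hA]
  linarith

/-- generators -/
def gen (T : Set (List ℕ)) (i : ℕ) : CL :=
  ⟨fun A => w T A i • e i, (continuous_w T i).smul continuous_const⟩

theorem gen_apply (T : Set (List ℕ)) (i : ℕ) (A : ℕ → Bool) : gen T i A = w T A i • e i := rfl

theorem gen_mem (T : Set (List ℕ)) (i : ℕ) : gen T i ∈ F T := by
  refine ⟨fun j => if j = i then 1 else 0, fun A j => ?_⟩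
  rw [gen_apply, map_smul]
  by_cases h : j = i
  · subst h
    rw [P_e_self j (B j) _ (le_refl _)]
    simp
  · rw [P_e_zero i (B j) _ (B_disjoint (Ne.symm h))]
    simp [h]

theorem gen_nonneg (T : Set (List ℕ)) (i : ℕ) : 0 ≤ gen T i := by
  intro A
  exact smul_nonneg_L1 (w_nonneg T A i) (e_nonneg i)

theorem norm_gen_le (T : Set (List ℕ)) (i : ℕ) : ‖gen T i‖ ≤ 2 := by
  rw [ContinuousMap.norm_le _ (by norm_num)]
  intro A
  rw [gen_apply, norm_smul, norm_e, mul_one, Real.norm_eq_abs, abs_of_nonneg (w_nonneg T A i)]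
  exact w_le_two T A i

/-- coefficients -/
def ak (k : ℕ) : ℝ := 16 * (1/2)^k

theorem ak_pos (k : ℕ) : 0 < ak k := by unfold ak; positivity

theorem hasSum_ak : HasSum ak 32 := by
  have := hasSum_geometric_two.mul_left (16:ℝ)
  have h32 : (32:ℝ) = 16 * 2 := by norm_num
  rw [h32]
  exact this

/-- index of the `k`-th node on the branch -/
def code (β : ℕ → ℕ) (k : ℕ) : ℕ := Encodable.encode (PiNat.res β k) + 2

theorem summable_gen (T : Set (List ℕ)) (β : ℕ → ℕ) :
    Summable (fun k => ak k • gen T (code β k)) := by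
  refine Summable.of_norm_bounded (g := fun k => ak k * 2) (hasSum_ak.summable.mul_right 2) ?_
  intro k
  rw [norm_smul, Real.norm_eq_abs, abs_of_pos (ak_pos k)]
  exact mul_le_mul_of_nonneg_left (norm_gen_le _ _) (ak_pos k).le

/-- the bad vector -/
def zz (T : Set (List ℕ)) (β : ℕ → ℕ) : CL := ∑' k, ak k • gen T (code β k)

theorem zz_mem (T : Set (List ℕ)) (β : ℕ → ℕ) : zz T β ∈ F T := by
  have h := (summable_gen T β).hasSum
  refine (isClosed_F T).mem_of_tendsto h (Eventually.of_forall fun s => ?_)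
  exact (F T).sum_mem fun k _ => (F T).smul_mem _ (gen_mem T _)

theorem hasSum_zz_apply (T : Set (List ℕ)) (β : ℕ → ℕ) (A : ℕ → Bool) :
    HasSum (fun k => (ak k * w T A (code β k)) • e (code β k)) (zz T β A) := by
  have h := (summable_gen T β).hasSum
  have h2 := h.map (ContinuousMap.evalCLM ℝ A) (ContinuousMap.evalCLM ℝ A).continuous
  convert h2 using 1
  · funext k
    simp [gen_apply, smul_smul]
  · rfl

theorem zz_nonneg (T : Set (List ℕ)) (β : ℕ → ℕ) : 0 ≤ zz T β := by
  intro A
  have h := hasSum_zz_apply T β A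
  have h2 : (0:L1) ≤ zz T β A := h.nonneg fun k =>
    smul_nonneg_L1 (mul_nonneg (ak_pos k).le (w_nonneg T A _)) (e_nonneg _)
  exact h2

theorem hasSum_Int_zz (T : Set (List ℕ)) (β : ℕ → ℕ) (A : ℕ → Bool) :
    HasSum (fun k => ak k * w T A (code β k)) (Int1 (zz T β A)) := by
  have h := (hasSum_zz_apply T β A).map Int1 Int1.continuous
  convert h using 1
  funext k
  simp [Int1_e]

theorem w_code_le (T : Set (List ℕ)) (β : ℕ → ℕ) (A : ℕ → Bool) (k : ℕ) :
    w T A (code β k) ≤ max 0 (1 - 4^k * rad A ^ 2) + rad A / 16 := by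
  unfold code
  by_cases h : Denumerable.ofNat (List ℕ) (Encodable.encode (PiNat.res β k)) ∈ T ∧
      active A (Denumerable.ofNat (List ℕ) (Encodable.encode (PiNat.res β k)))
  · rw [w_pos_case h, Denumerable.ofNat_encode, PiNat.res_length]
  · rw [w_neg_case h]
    have : (0:ℝ) ≤ max 0 (1 - 4^k * rad A ^ 2) := le_max_left _ _
    linarith

/-- the key numerical estimate -/
theorem key_estimate {r : ℝ} (hr0 : 0 ≤ r) (hr1 : r ≤ 1) :
    ∑' k, ak k * max 0 (1 - 4^k * r^2) ≤ 32 - 4 * r := by
  set m : ℕ → ℝ := fun k => max 0 (1 - 4^k * r^2) with hm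
  have hm0 : ∀ k, 0 ≤ m k := fun k => le_max_left _ _
  have hm1 : ∀ k, m k ≤ 1 := fun k => by
    apply max_le zero_le_one
    have : 0 ≤ (4:ℝ)^k * r^2 := by positivity
    linarith
  have hs1 : Summable (fun k => ak k * m k) := by
    refine Summable.of_nonneg_of_le (fun k => mul_nonneg (ak_pos k).le (hm0 k)) (fun k => ?_)
      hasSum_ak.summable
    exact mul_le_of_le_one_right (ak_pos k).le (hm1 k)
  have hs2 : Summable (fun k => ak k * (1 - m k)) := by
    have := hasSum_ak.summable.sub hs1
    refine this.congr (fun k => ?_)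
    ring
  have hsum : ∑' k, ak k * m k + ∑' k, ak k * (1 - m k) = 32 := by
    rw [← hs1.tsum_add hs2, ← hasSum_ak.tsum_eq]
    congr 1
    funext k
    ring
  have hlow : 4 * r ≤ ∑' k, ak k * (1 - m k) := by
    rcases hr0.lt_or_eq with h | h
    · obtain ⟨k0, hk0, hk0'⟩ := exists_nat_pow_near_of_lt_one h hr1
        (show (0:ℝ) < 1/2 by norm_num) (show (1/2:ℝ) < 1 by norm_num)
      have h1 : (1/4:ℝ) ≤ 4^k0 * r^2 := by
        have h2 : ((1/2:ℝ)^(k0+1))^2 ≤ r^2 := by
          apply pow_le_pow_left₀ (by positivity) hk0.le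
        have h3 : (4:ℝ)^k0 * ((1/2:ℝ)^(k0+1))^2 = 1/4 := by
          rw [← pow_mul, mul_comm (k0+1) 2, pow_mul]
          rw [pow_succ, ← mul_assoc, ← mul_pow]
          norm_num
        calc (1/4:ℝ) = (4:ℝ)^k0 * ((1/2:ℝ)^(k0+1))^2 := h3.symm
          _ ≤ 4^k0 * r^2 := mul_le_mul_of_nonneg_left h2 (by positivity)
      have h4 : m k0 ≤ 3/4 := by
        apply max_le (by norm_num)
        linarith
      have h5 : ak k0 * (1 - m k0) ≤ ∑' k, ak k * (1 - m k) :=
        hs2.le_tsum k0 (fun j _ => mul_nonneg (ak_pos j).le (by linarith [hm1 j]))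
      have h6 : 16 * r ≤ ak k0 := by
        unfold ak
        linarith
      nlinarith [ak_pos k0]
    · rw [← h, mul_zero]
      exact tsum_nonneg (fun j => mul_nonneg (ak_pos j).le (by linarith [hm1 j]))
  linarith

/-- the code of a branch -/
def Abr (β : ℕ → ℕ) : ℕ → Bool := fun m =>
  decide (0 < (Nat.unpair m).1 ∧ (Nat.unpair m).2 = β ((Nat.unpair m).1 - 1))

theorem rad_Abr (β : ℕ → ℕ) : rad (Abr β) = 0 := by
  unfold rad
  have : ∀ n, (if Abr β (Nat.pair 0 n) = true then (1/2:ℝ)^(n+1) else 0) = 0 := by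
    intro n
    rw [if_neg]
    simp [Abr]
  simp_rw [this]
  exact tsum_zero

theorem hit_Abr (β : ℕ → ℕ) (i : ℕ) : hit (Abr β) (i+1) (β i) := by
  constructor
  · simp [Abr]
  · intro j hj
    simp only [Abr, Nat.unpair_pair]
    simp
    omega

theorem active_Abr (β : ℕ → ℕ) (k : ℕ) : active (Abr β) (PiNat.res β k) := by
  induction k with
  | zero => simp [active]
  | succ k ih =>
    rw [PiNat.res_succ]
    refine ⟨ih, ?_⟩
    rw [PiNat.res_length]
    exact hit_Abr β k

/-- Ill-founded trees give lattices that are not strictly monotone. -/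
theorem not_strictMono_of_branch (T : Set (List ℕ)) (β : ℕ → ℕ) (hβ : ∀ k, PiNat.res β k ∈ T) :
    ∃ x ∈ F T, ∃ y ∈ F T, 0 < y ∧ y ≤ x ∧ ¬ ‖x - y‖ < ‖x‖ := by
  have hz0 : 0 ≤ gen T 0 + zz T β := add_nonneg (gen_nonneg T 0) (zz_nonneg T β)
  refine ⟨gen T 0 + zz T β + gen T 1, (F T).add_mem ((F T).add_mem (gen_mem T 0) (zz_mem T β))
    (gen_mem T 1), gen T 1, gen_mem T 1, ?_, ?_, ?_⟩
  · refine lt_of_le_of_ne (gen_nonneg T 1) ?_
    intro h
    have h1 : gen T 1 A1 = 0 := by rw [← h]; rfl
    rw [gen_apply] at h1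
    have h2 := congrArg norm h1
    rw [norm_smul, norm_e, mul_one, norm_zero, norm_eq_zero] at h2
    exact (w_pos T A1 rad_A1_pos 1).ne' h2
  · exact le_add_of_nonneg_left hz0
  · rw [add_sub_cancel_right, not_lt]
    have hupper : ‖gen T 0 + zz T β + gen T 1‖ ≤ 33 := by
      rw [ContinuousMap.norm_le _ (by norm_num)]
      intro A
      have hnn : (0:L1) ≤ (gen T 0 + zz T β + gen T 1) A :=
        (add_nonneg hz0 (gen_nonneg T 1)) A
      rw [norm_eq_Int1 hnn]
      rw [ContinuousMap.add_apply, ContinuousMap.add_apply, map_add, map_add, gen_apply, gen_apply,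
        map_smul, map_smul, Int1_e, Int1_e, smul_eq_mul, smul_eq_mul, mul_one, mul_one]
      have h1 := hasSum_Int_zz T β A
      have hr0 := rad_nonneg A
      have hr1 := rad_le_one A
      have hs1 : Summable (fun k => ak k * max 0 (1 - 4^k * rad A ^2)) := by
        refine Summable.of_nonneg_of_le (fun k => mul_nonneg (ak_pos k).le (le_max_left _ _))
          (fun k => ?_) hasSum_ak.summable
        apply mul_le_of_le_one_right (ak_pos k).le
        apply max_le zero_le_one
        have : 0 ≤ (4:ℝ)^k * rad A^2 := by positivity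
        linarith
      have hs2 : Summable (fun k => ak k * (rad A / 16)) := hasSum_ak.summable.mul_right _
      have h2 : Int1 (zz T β A) ≤ (∑' k, ak k * max 0 (1 - 4^k * rad A ^2))
          + ∑' k, ak k * (rad A / 16) := by
        rw [← hs1.tsum_add hs2]
        refine hasSum_le (fun k => ?_) h1 (hs1.add hs2).hasSum
        rw [← mul_add]
        exact mul_le_mul_of_nonneg_left (w_code_le T β A k) (ak_pos k).le
      have h3 := key_estimate hr0 hr1
      have h4 : ∑' k, ak k * (rad A / 16) = 32 * (rad A / 16) := (hasSum_ak.mul_right _).tsum_eq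
      simp only [w]
      linarith
    have hlower : 33 ≤ ‖gen T 0 + zz T β‖ := by
      refine le_trans ?_ ((gen T 0 + zz T β).norm_coe_le_norm (Abr β))
      have hnn : (0:L1) ≤ (gen T 0 + zz T β) (Abr β) := hz0 (Abr β)
      rw [norm_eq_Int1 hnn]
      rw [ContinuousMap.add_apply, map_add, gen_apply, map_smul, Int1_e, smul_eq_mul, mul_one]
      have h1 := hasSum_Int_zz T β (Abr β)
      have hw : ∀ k, w T (Abr β) (code β k) = 1 := by
        intro k
        unfold code
        have h : Denumerable.ofNat (List ℕ) (Encodable.encode (PiNat.res β k)) ∈ T ∧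
          active (Abr β) (Denumerable.ofNat (List ℕ) (Encodable.encode (PiNat.res β k))) := by
          rw [Denumerable.ofNat_encode]
          exact ⟨hβ k, active_Abr β k⟩
        rw [w_pos_case h, rad_Abr]
        norm_num
      simp only [hw, mul_one] at h1
      have h2 := h1.unique hasSum_ak
      rw [h2]
      simp only [w, rad_Abr]
      norm_num
    linarith

theorem w_congr {T T' : Set (List ℕ)} {n : ℕ}
    (h : ∀ j < n, (Denumerable.ofNat (List ℕ) j ∈ T ↔ Denumerable.ofNat (List ℕ) j ∈ T'))
    (A : ℕ → Bool) : ∀ i < n, w T A i = w T' A i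
  | 0, _ => rfl
  | 1, _ => rfl
  | (j+2), hj => by
    have hj' := h j (by omega)
    by_cases h1 : Denumerable.ofNat (List ℕ) j ∈ T ∧ active A (Denumerable.ofNat (List ℕ) j)
    · have h2 : Denumerable.ofNat (List ℕ) j ∈ T' ∧ active A (Denumerable.ofNat (List ℕ) j) :=
        ⟨hj'.mp h1.1, h1.2⟩
      rw [w_pos_case h1, w_pos_case h2]
    · have h2 : ¬ (Denumerable.ofNat (List ℕ) j ∈ T' ∧
          active A (Denumerable.ofNat (List ℕ) j)) :=
        fun hh => h1 ⟨hj'.mpr hh.1, hh.2⟩
      rw [w_neg_case h1, w_neg_case h2]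

theorem Pc_mem_F {T T' : Set (List ℕ)} {n : ℕ}
    (h : ∀ j < n, (Denumerable.ofNat (List ℕ) j ∈ T ↔ Denumerable.ofNat (List ℕ) j ∈ T'))
    {u : CL} (hu : u ∈ F T) : Pc (Cs n) (measurableSet_Cs n) u ∈ F T' := by
  obtain ⟨x, hx⟩ := hu
  refine ⟨fun i => if i < n then x i else 0, fun A i => ?_⟩
  rw [Pc_apply]
  by_cases hi : i < n
  · simp only [if_pos hi]
    rw [P_B_Cs_lt hi, hx, w_congr h A i hi]
  · simp only [if_neg hi]
    rw [P_B_Cs_ge (not_lt.mp hi), zero_mul, zero_smul]

theorem infDist_F_le {T T' : Set (List ℕ)} {n : ℕ}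
    (h : ∀ j < n, (Denumerable.ofNat (List ℕ) j ∈ T ↔ Denumerable.ofNat (List ℕ) j ∈ T'))
    (α : CL) : Metric.infDist α (F T' : Set CL) ≤ Metric.infDist α (F T : Set CL)
      + ‖α - Pc (Cs n) (measurableSet_Cs n) α‖ := by
  apply le_of_forall_pos_lt_add
  intro ε hε
  have hne : (F T : Set CL).Nonempty := ⟨0, (F T).zero_mem⟩
  obtain ⟨u, hu, hdu⟩ := (Metric.infDist_lt_iff hne).mp
    (show Metric.infDist α (F T : Set CL) < Metric.infDist α (F T : Set CL) + ε by linarith)
  have h1 : Metric.infDist α (F T' : Set CL) ≤ dist α (Pc (Cs n) (measurableSet_Cs n) u) :=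
    Metric.infDist_le_dist_of_mem (Pc_mem_F h hu)
  have h2 : dist α (Pc (Cs n) (measurableSet_Cs n) u)
      ≤ ‖α - Pc (Cs n) (measurableSet_Cs n) α‖ + ‖α - u‖ := by
    refine (dist_triangle α (Pc (Cs n) (measurableSet_Cs n) α) _).trans ?_
    rw [dist_eq_norm, dist_eq_norm]
    linarith [norm_Pc_sub_le (Cs n) (measurableSet_Cs n) α u]
  rw [dist_eq_norm] at hdu
  linarith

theorem continuous_infDist_F {Y : Type*} [TopologicalSpace Y] (T : Y → Set (List ℕ))
    (hT : ∀ l, IsClopen {y | l ∈ T y}) (α : CL) :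
    Continuous (fun y => Metric.infDist α (F (T y) : Set CL)) := by
  rw [continuous_iff_continuousAt]
  intro y
  rw [ContinuousAt, Metric.tendsto_nhds]
  intro ε hε
  obtain ⟨n, hn⟩ := exists_norm_sub_Pc_lt α hε
  have hev : ∀ᶠ y' in 𝓝 y, ∀ j ∈ Finset.range n, (Denumerable.ofNat (List ℕ) j ∈ T y' ↔
      Denumerable.ofNat (List ℕ) j ∈ T y) := by
    rw [Filter.eventually_all_finset]
    intro j _
    by_cases hj : Denumerable.ofNat (List ℕ) j ∈ T y
    · have := (hT (Denumerable.ofNat (List ℕ) j)).isOpen.mem_nhds hj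
      filter_upwards [this] with y' hy'
      exact ⟨fun _ => hj, fun _ => hy'⟩
    · have := (hT (Denumerable.ofNat (List ℕ) j)).compl.isOpen.mem_nhds hj
      filter_upwards [this] with y' hy'
      exact ⟨fun h => absurd h hy', fun h => absurd h hj⟩
  filter_upwards [hev] with y' hy'
  have h1 := infDist_F_le (n := n) (fun j hj => (hy' j (Finset.mem_range.mpr hj)).symm) α
  have h2 := infDist_F_le (n := n) (fun j hj => (hy' j (Finset.mem_range.mpr hj))) α
  rw [Real.dist_eq, abs_sub_lt_iff]
  constructor <;> linarith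


/-! ### The coanalytic upper bound -/

/-- sequences whose closure is a sublattice -/
def good (v : ℕ → CL) : Prop :=
  (∀ i j, v i + v j ∈ closure (range v)) ∧ (∀ i, ∀ q : ℚ, (q:ℝ) • v i ∈ closure (range v)) ∧
    (∀ i, |v i| ∈ closure (range v))

theorem continuous_abs_CL : Continuous (fun u : CL => |u|) := by
  have h1 : Continuous (fun f : L1 => |f|) := continuous_id.sup continuous_neg
  have h2 : (fun u : CL => |u|) = fun u => (⟨fun f => |f|, h1⟩ : C(L1, L1)).comp u := by
    funext u; ext1 A; rfl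
  rw [h2]
  exact ContinuousMap.continuous_postcomp _

/-- the sublattice generated by a good sequence -/
def mkS (v : ℕ → CL) (h : good v) : Subl :=
  ⟨{ carrier := closure (range v)
     add_mem' := by
      intro x y hx hy
      have := map_mem_closure₂ (s := range v) (t := range v) (u := closure (range v))
        (f := fun x y : CL => x + y) continuous_add hx hy (by
          rintro _ ⟨i, rfl⟩ _ ⟨j, rfl⟩; exact h.1 i j)
      rwa [closure_closure] at this
     zero_mem' := by simpa using h.2.1 0 0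
     smul_mem' := by
      intro c x hx
      have hc : c ∈ closure (range ((↑) : ℚ → ℝ)) := by
        rw [Rat.denseRange_cast.closure_range]; trivial
      have := map_mem_closure₂ (s := range ((↑) : ℚ → ℝ)) (t := range v) (u := closure (range v))
        (f := fun (c : ℝ) (x : CL) => c • x) continuous_smul hc hx (by
          rintro _ ⟨q, rfl⟩ _ ⟨j, rfl⟩; exact h.2.1 j q)
      rwa [closure_closure] at this },
    isClosed_closure, by
      intro y hy
      have := map_mem_closure continuous_abs_CL (t := closure (range v)) hy (by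
        rintro _ ⟨i, rfl⟩; exact h.2.2 i)
      rwa [closure_closure] at this⟩

theorem mkS_coe (v : ℕ → CL) (h : good v) : ((mkS v h).1 : Set CL) = closure (range v) := rfl

/-- the zero sublattice -/
def botS : Subl := ⟨⊥, by
  constructor
  · simp
  · intro y hy
    rw [Submodule.mem_bot] at hy ⊢
    rw [hy]; simp⟩

open Classical in
/-- the parametrisation -/
def GG (v : ℕ → CL) : Subl := if h : good v then mkS v h else botS

/-- the Borel set of codes of failures of strict monotonicity -/
def SS : Set (ℕ → CL) :=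
  {v | good v ∧ 0 ≤ v 1 ∧ v 1 ≠ 0 ∧ v 1 ≤ v 0 ∧ ‖v 0‖ ≤ ‖v 0 - v 1‖}

theorem image_SS (a : ℕ → CL) (ha : DenseRange a) : GG '' SS = STMᶜ := by
  have hsep : SeparableSpace CL := ⟨range a, countable_range a, ha⟩
  ext F
  constructor
  · rintro ⟨v, ⟨hg, h0, hne, hle, hn⟩, rfl⟩
    rw [GG, dif_pos hg]
    intro hmem
    have h1 := hmem (v 0) (subset_closure ⟨0, rfl⟩) (v 1) (subset_closure ⟨1, rfl⟩)
      (lt_of_le_of_ne h0 (Ne.symm hne)) hle
    linarith
  · intro hF
    simp only [STM, Set.mem_compl_iff, Set.mem_ofPred_eq, not_forall, not_lt] at hF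
    obtain ⟨x, hx, y, hy, hy0, hyx, hxy⟩ := hF
    have : SecondCountableTopology CL := UniformSpace.secondCountable_of_separable CL
    have : Nonempty F.1 := ⟨⟨x, hx⟩⟩
    obtain ⟨d, hd⟩ := exists_dense_seq (F.1)
    let v : ℕ → CL := fun n => match n with
      | 0 => x
      | 1 => y
      | (n+2) => (d n : CL)
    have hvF : ∀ n, v n ∈ F.1 := by
      intro n
      match n with
      | 0 => exact hx
      | 1 => exact hy
      | (n+2) => exact (d n).2
    have hcl : closure (range v) = (F.1 : Set CL) := by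
      apply Set.Subset.antisymm
      · apply closure_minimal _ F.2.1
        rintro _ ⟨n, rfl⟩
        exact hvF n
      · intro z hz
        have h1 : (⟨z, hz⟩ : F.1) ∈ closure (range d) := hd _
        have h2 := map_mem_closure continuous_subtype_val (t := range v) h1 (by
          rintro _ ⟨n, rfl⟩
          exact ⟨n+2, rfl⟩)
        exact h2
    have hgood : good v := by
      refine ⟨fun i j => ?_, fun i q => ?_, fun i => ?_⟩
      · rw [hcl]; exact F.1.add_mem (hvF i) (hvF j)
      · rw [hcl]; exact F.1.smul_mem _ (hvF i)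
      · rw [hcl]; exact F.2.2 _ (hvF i)
    refine ⟨v, ⟨hgood, hy0.le, hy0.ne', hyx, hxy⟩, ?_⟩
    rw [GG, dif_pos hgood]
    apply Subtype.ext
    apply SetLike.coe_injective
    rw [mkS_coe, hcl]

theorem isClosed_nonneg_CL : IsClosed {u : CL | 0 ≤ u} := by
  have : {u : CL | 0 ≤ u} = ⋂ A, {u : CL | (0:L1) ≤ u A} := by
    ext u
    simp only [Set.mem_ofPred_eq, Set.mem_iInter]
    rfl
  rw [this]
  refine isClosed_iInter fun A => ?_
  exact isClosed_le continuous_const (continuous_eval_const (F := CL) A)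

theorem analytic_compl_STM (a : ℕ → CL) (ha : DenseRange a) :
    @AnalyticSet Subl (wijsman a) STMᶜ := by
  have hsep : SeparableSpace CL := ⟨range a, countable_range a, ha⟩
  have : SecondCountableTopology CL := UniformSpace.secondCountable_of_separable CL
  let _ : MeasurableSpace CL := borel CL
  have : BorelSpace CL := ⟨rfl⟩
  let _ : TopologicalSpace Subl := wijsman a
  let _ : MeasurableSpace Subl := borel Subl
  have : BorelSpace Subl := ⟨rfl⟩
  have hev : ∀ n, Continuous (fun v : ℕ → CL => v n) := fun n => continuous_apply n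
  -- closure membership is Borel
  have hcl : ∀ g : (ℕ → CL) → CL, Continuous g →
      MeasurableSet {v : ℕ → CL | g v ∈ closure (range v)} := by
    intro g hg
    have : {v : ℕ → CL | g v ∈ closure (range v)}
        = ⋂ n : ℕ, ⋃ k : ℕ, {v : ℕ → CL | dist (g v) (v k) < 1/((n:ℝ)+1)} := by
      ext v
      simp only [Set.mem_ofPred_eq, Set.mem_iInter, Set.mem_iUnion]
      exact Metric.mem_closure_range_iff_nat
    rw [this]
    refine MeasurableSet.iInter fun n => MeasurableSet.iUnion fun k => ?_
    exact (isOpen_lt (hg.dist (hev k)) continuous_const).measurableSet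
  have hgood : MeasurableSet {v : ℕ → CL | good v} := by
    have : {v : ℕ → CL | good v} = (⋂ i, ⋂ j, {v | v i + v j ∈ closure (range v)}) ∩
        ((⋂ i, ⋂ q : ℚ, {v | (q:ℝ) • v i ∈ closure (range v)}) ∩
        (⋂ i, {v | |v i| ∈ closure (range v)})) := by
      ext v
      simp only [good, Set.mem_ofPred_eq, Set.mem_inter_iff, Set.mem_iInter]
    rw [this]
    refine (MeasurableSet.iInter fun i => MeasurableSet.iInter fun j => ?_).inter
      ((MeasurableSet.iInter fun i => MeasurableSet.iInter fun q => ?_).inter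
      (MeasurableSet.iInter fun i => ?_))
    · exact hcl _ ((hev i).add (hev j))
    · exact hcl _ ((hev i).const_smul (q:ℝ))
    · exact hcl _ (continuous_abs_CL.comp (hev i))
  have hSS : MeasurableSet SS := by
    have : SS = {v : ℕ → CL | good v} ∩ ({v | 0 ≤ v 1} ∩ ({v | v 1 ≠ 0} ∩
        ({v | 0 ≤ v 0 - v 1} ∩ {v | ‖v 0‖ ≤ ‖v 0 - v 1‖}))) := by
      ext v
      simp only [SS, Set.mem_ofPred_eq, Set.mem_inter_iff, sub_nonneg]
    rw [this]
    refine hgood.inter (MeasurableSet.inter ?_ (MeasurableSet.inter ?_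
      (MeasurableSet.inter ?_ ?_)))
    · exact (isClosed_nonneg_CL.preimage (hev 1)).measurableSet
    · exact (isOpen_ne.preimage (hev 1)).measurableSet
    · exact (isClosed_nonneg_CL.preimage ((hev 0).sub (hev 1))).measurableSet
    · exact (isClosed_le (hev 0).norm ((hev 0).sub (hev 1)).norm).measurableSet
  have hGG : Measurable GG := by
    have hb : (borel Subl) = (borel (ℕ → ℝ)).comap
        (fun (F : Subl) (n : ℕ) => Metric.infDist (a n) (F.1 : Set CL)) :=
      borel_comap
    have hpi : (borel (ℕ → ℝ)) = MeasurableSpace.pi := (BorelSpace.measurable_eq).symm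
    rw [hpi] at hb
    change @Measurable _ _ _ (borel Subl) GG
    rw [hb, measurable_comap_iff, measurable_pi_iff]
    intro n
    have h1 : Measurable (fun v : ℕ → CL => Metric.infDist (a n) (range v)) := by
      apply measurable_of_Iio
      intro c
      have : (fun v : ℕ → CL => Metric.infDist (a n) (range v)) ⁻¹' Iio c
          = ⋃ k, {v : ℕ → CL | dist (a n) (v k) < c} := by
        ext v
        simp only [Set.mem_preimage, Set.mem_Iio, Set.mem_iUnion, Set.mem_ofPred_eq]
        rw [Metric.infDist_lt_iff (range_nonempty v)]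
        simp
      rw [this]
      refine MeasurableSet.iUnion fun k => ?_
      exact (isOpen_lt (continuous_const.dist (hev k)) continuous_const).measurableSet
    classical
    have h2 : (fun v : ℕ → CL => Metric.infDist (a n) ((GG v).1 : Set CL)) = fun v =>
        if good v then Metric.infDist (a n) (range v)
        else Metric.infDist (a n) ((botS).1 : Set CL) := by
      funext v
      by_cases h : good v
      · rw [if_pos h, GG, dif_pos h, mkS_coe, Metric.infDist_closure]
      · rw [if_neg h, GG, dif_neg h]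
    change Measurable (fun v : ℕ → CL => Metric.infDist (a n) ((GG v).1 : Set CL))
    rw [h2]
    exact Measurable.ite hgood h1 measurable_const
  have hsc : SecondCountableTopology Subl := by
    exact TopologicalSpace.secondCountableTopology_induced _ _ _
  have := hSS.analyticSet_image hGG
  rw [image_SS a ha] at this
  exact this

theorem exists_inj_cantor (Y : Type*) [TopologicalSpace Y] [PolishSpace Y]
    (hY : IsTopologicalBasis {s : Set Y | IsClopen s}) :
    ∃ h : Y → (ℕ → Bool), Continuous h ∧ Function.Injective h := by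
  obtain ⟨s, hs, hsc, hsb⟩ := hY.exists_countable
  obtain ⟨V, hV⟩ := (hsc.insert ∅).exists_eq_range (Set.insert_nonempty _ _)
  have hVclop : ∀ n, IsClopen (V n) := by
    intro n
    have : V n ∈ insert ∅ s := by rw [hV]; exact ⟨n, rfl⟩
    rcases this with h | h
    · rw [h]; exact isClopen_empty
    · exact hs h
  refine ⟨fun y n => (V n).boolIndicator y, ?_, ?_⟩
  · exact continuous_pi fun n => (continuous_boolIndicator_iff_isClopen _).mpr (hVclop n)
  · intro y y' hyy'
    by_contra hne
    have h1 : ({y'}ᶜ : Set Y) ∈ 𝓝 y := isOpen_compl_singleton.mem_nhds hne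
    obtain ⟨v, hvs, hyv, hv⟩ := hsb.mem_nhds_iff.mp h1
    have h2 : v ∈ insert ∅ s := Set.mem_insert_of_mem _ hvs
    rw [hV] at h2
    obtain ⟨n, rfl⟩ := h2
    have h3 := congrFun hyy' n
    simp only at h3
    have h4 : (V n).boolIndicator y = true := (Set.mem_iff_boolIndicator _ _).mp hyv
    rw [h4] at h3
    have h5 : y' ∈ V n := (Set.mem_iff_boolIndicator _ _).mpr h3.symm
    exact hv h5 rfl

theorem exists_trees (A : Set (ℕ → Bool)) (hA : AnalyticSet A) :
    ∃ T : (ℕ → Bool) → Set (List ℕ), (∀ l, IsClopen {y | l ∈ T y}) ∧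
      (∀ y a l, (a :: l) ∈ T y → l ∈ T y) ∧
      (∀ y, (∃ β : ℕ → ℕ, ∀ k, PiNat.res β k ∈ T y) ↔ y ∈ A) := by
  rw [AnalyticSet] at hA
  rcases hA with hA | ⟨g, hg, hgA⟩
  · refine ⟨fun _ => ∅, fun l => ?_, fun y a l h => h, fun y => ?_⟩
    · simp only [Set.mem_empty_iff_false]
      exact isClopen_empty
    · rw [hA]; simp
  · refine ⟨fun y => {l | ∃ β : ℕ → ℕ, PiNat.res β l.length = l ∧ ∀ i < l.length, g β i = y i},
      fun l => ?_, fun y a l => ?_, fun y => ?_⟩
    · have : {y : ℕ → Bool | l ∈ {l : List ℕ | ∃ β : ℕ → ℕ, PiNat.res β l.length = l ∧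
            ∀ i < l.length, g β i = y i}}
          = (fun (y : ℕ → Bool) (i : Fin l.length) => y i) ⁻¹'
            {p | ∃ β : ℕ → ℕ, PiNat.res β l.length = l ∧ ∀ i : Fin l.length, g β i = p i} := by
        ext y
        simp only [Set.mem_ofPred_eq, Set.mem_preimage]
        constructor
        · rintro ⟨β, h1, h2⟩
          exact ⟨β, h1, fun i => h2 i i.2⟩
        · rintro ⟨β, h1, h2⟩
          exact ⟨β, h1, fun i hi => h2 ⟨i, hi⟩⟩
      rw [this]
      exact (isClopen_discrete _).preimage (continuous_pi fun i => continuous_apply _)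
    · rintro ⟨β, h1, h2⟩
      rw [List.length_cons] at h1 h2
      rw [PiNat.res_succ] at h1
      refine ⟨β, (List.cons.inj h1).2, fun i hi => h2 i (by omega)⟩
    · rw [← hgA]
      constructor
      · rintro ⟨β, hβ⟩
        refine ⟨β, ?_⟩
        choose b hb1 hb2 using hβ
        simp only [PiNat.res_length] at hb1 hb2
        -- b k agrees with β on the first k values
        have hagree : ∀ k i, i < k → b k i = β i := by
          intro k i hi
          exact PiNat.res_eq_res.mp (hb1 k) hi
        have htend : Tendsto b atTop (𝓝 β) := by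
          rw [tendsto_pi_nhds]
          intro i
          apply tendsto_const_nhds.congr'
          filter_upwards [eventually_gt_atTop i] with k hk
          exact (hagree k i hk).symm
        have htend2 := (hg.tendsto β).comp htend
        funext i
        have h3 := (tendsto_pi_nhds.mp htend2) i
        have h4 : Tendsto (fun k => (g ∘ b) k i) atTop (𝓝 (y i)) := by
          apply tendsto_const_nhds.congr'
          filter_upwards [eventually_gt_atTop i] with k hk
          exact (hb2 k i hk).symm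
        exact tendsto_nhds_unique h3 h4
      · rintro ⟨β, rfl⟩
        refine ⟨β, fun k => ⟨β, ?_, fun i _ => rfl⟩⟩
        rw [PiNat.res_length]

theorem hardness (a : ℕ → CL) (Y : Type*) [TopologicalSpace Y] [PolishSpace Y]
    (hY : IsTopologicalBasis {s : Set Y | IsClopen s}) (S : Set Y) (hS : AnalyticSet Sᶜ) :
    ∃ f : Y → Subl, @Continuous Y Subl _ (wijsman a) f ∧ f ⁻¹' STM = S := by
  obtain ⟨h, hcont, hinj⟩ := exists_inj_cantor Y hY
  obtain ⟨T, hT1, hT2, hT3⟩ := exists_trees (h '' Sᶜ) (hS.image_of_continuous hcont)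
  refine ⟨fun y => ⟨F (T (h y)), isClosed_F _, fun u hu => abs_mem_F _ u hu⟩, ?_, ?_⟩
  · rw [continuous_induced_rng]
    refine continuous_pi fun n => ?_
    exact continuous_infDist_F (fun y => T (h y)) (fun l => (hT1 l).preimage hcont) (a n)
  · ext y
    have key : (∃ β : ℕ → ℕ, ∀ k, PiNat.res β k ∈ T (h y)) ↔ y ∉ S := by
      rw [hT3]
      constructor
      · rintro ⟨z, hz, hzy⟩
        rw [← hinj hzy]; exact hz
      · intro hy
        exact ⟨y, hy, rfl⟩
    constructor
    · intro hy
      by_contra hyS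
      obtain ⟨β, hβ⟩ := key.mpr hyS
      obtain ⟨x, hx, z, hz, h0, h1, h2⟩ := not_strictMono_of_branch _ β hβ
      exact h2 (hy x hx z hz h0 h1)
    · intro hyS
      have hwf : ¬ ∃ β : ℕ → ℕ, ∀ k, PiNat.res β k ∈ T (h y) := fun h' => (key.mp h') hyS
      exact strictMono_of_wf _ (hT2 (h y)) hwf

/-- `C(Δ; L₁)` is separable, so dense sequences exist. -/
theorem exists_denseRange : ∃ a : ℕ → CL, DenseRange a := by
  have : Fact ((1:ENNReal) ≠ ⊤) := ⟨by norm_num⟩
  have h1 : SecondCountableTopology L1 := UniformSpace.secondCountable_of_separable L1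
  have h2 : SeparableSpace CL := inferInstance
  exact TopologicalSpace.exists_dense_seq CL

/-- **Main theorem.**  For every dense sequence `a` in `C = C(Δ; L₁)`, in the Wijsman topology on
`Subl(C)` the set `STM(C)` is `Π¹₁`-complete: it is coanalytic, and for every zero-dimensional
Polish space `Y` and every coanalytic `S ⊆ Y` there is a continuous `f : Y → Subl(C)` with
`f⁻¹(STM(C)) = S`. -/
theorem main (a : ℕ → CL) (ha : DenseRange a) :
    @AnalyticSet Subl (wijsman a) STMᶜ ∧
      ∀ (Y : Type*) [TopologicalSpace Y] [PolishSpace Y],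
        IsTopologicalBasis {s : Set Y | IsClopen s} →
          ∀ S : Set Y, AnalyticSet Sᶜ →
            ∃ f : Y → Subl, @Continuous Y Subl _ (wijsman a) f ∧ f ⁻¹' STM = S :=
  ⟨analytic_compl_STM a ha, fun Y _ _ hY S hS => hardness a Y hY S hS⟩

end

end Pool.Agent.H76.PIM
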